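import Pool.Agent.Lib_helper97.JO.HK
import Pool.Agent.Lib_helper68.JO.Defs

/-! Project JO, part H (amplified mean square). Definitions. -/

set_option autoImplicit false

namespace Pool.Agent.JO

open Complex MeasureTheory Filter Topology ModularGroup
open UpperHalfPlane hiding I
open scoped MatrixGroups Modular ComplexConjugate

theorem hh_sq_pos (m : ℕ) [NeZero m] : 0 < m ^ 2 := pow_pos (Nat.pos_of_ne_zero (NeZero.ne m)) 2

theorem hh_det {n : ℕ} (hn : 0 < n) {t : ℕ × ℕ × ℕ} (ht : t ∈ HM n) : (hkd t).det = n := by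
  rw [hkd, Matrix.det_fin_two_of, mul_zero, sub_zero]
  exact_mod_cast ((hk_mem_HM hn t).1 ht).1

theorem hh_exists (m : ℕ) [NeZero m] (γ : SL(2, ℤ)) (t : ↥(HM (m ^ 2))) :
    ∃ t' : ↥(HM (m ^ 2)), ∃ σ : SL(2, ℤ), hkd t.1 * ((γ⁻¹ : SL(2, ℤ)) : Matrix (Fin 2) (Fin 2) ℤ) =
      (σ : Matrix (Fin 2) (Fin 2) ℤ) * hkd t'.1 := by
  obtain ⟨g, t', h1, h2⟩ := hk_exists (hh_sq_pos m)
    (hkd t.1 * ((γ⁻¹ : SL(2, ℤ)) : Matrix (Fin 2) (Fin 2) ℤ)) (by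
      rw [Matrix.det_mul, Matrix.SpecialLinearGroup.det_coe, mul_one, hh_det (hh_sq_pos m) t.2])
  exact ⟨⟨t', h1⟩, g, h2⟩

/-- the action of `SL₂(ℤ)` on `SL₂(ℤ)\{det = m²}` by right multiplication with `γ⁻¹` -/
noncomputable def hact (m : ℕ) [NeZero m] (γ : SL(2, ℤ)) (t : ↥(HM (m ^ 2))) : ↥(HM (m ^ 2)) :=
  (hh_exists m γ t).choose

theorem hact_spec (m : ℕ) [NeZero m] (γ : SL(2, ℤ)) (t : ↥(HM (m ^ 2))) :
    ∃ σ : SL(2, ℤ), hkd t.1 * ((γ⁻¹ : SL(2, ℤ)) : Matrix (Fin 2) (Fin 2) ℤ) =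
      (σ : Matrix (Fin 2) (Fin 2) ℤ) * hkd (hact m γ t).1 :=
  (hh_exists m γ t).choose_spec

/-- uniqueness: the criterion for `hact m γ t = t'` -/
theorem hact_eq {m : ℕ} [NeZero m] {γ : SL(2, ℤ)} {t t' : ↥(HM (m ^ 2))} {σ : SL(2, ℤ)}
    (h : hkd t.1 * ((γ⁻¹ : SL(2, ℤ)) : Matrix (Fin 2) (Fin 2) ℤ) =
      (σ : Matrix (Fin 2) (Fin 2) ℤ) * hkd t'.1) : hact m γ t = t' := by
  obtain ⟨ρ, hρ⟩ := hact_spec m γ t
  have h2 : hkd (hact m γ t).1 = ((ρ⁻¹ * σ : SL(2, ℤ)) : Matrix (Fin 2) (Fin 2) ℤ) * hkd t'.1 := by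
    rw [Matrix.SpecialLinearGroup.coe_mul, Matrix.mul_assoc, ← h, hρ, ← Matrix.mul_assoc,
      ← Matrix.SpecialLinearGroup.coe_mul, inv_mul_cancel, Matrix.SpecialLinearGroup.coe_one,
      Matrix.one_mul]
  exact Subtype.ext (hk_unique (hh_sq_pos m) (hact m γ t).2 t'.2 _ h2)

noncomputable instance hmAct (m : ℕ) [NeZero m] : MulAction SL(2, ℤ) (↥(HM (m ^ 2))) where
  smul := hact m
  one_smul t := by
    show hact m 1 t = t
    apply hact_eq (σ := 1)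
    rw [inv_one, Matrix.SpecialLinearGroup.coe_one, Matrix.one_mul, Matrix.mul_one]
  mul_smul γ δ t := by
    show hact m (γ * δ) t = hact m γ (hact m δ t)
    obtain ⟨σ, hσ⟩ := hact_spec m δ t
    obtain ⟨ρ, hρ⟩ := hact_spec m γ (hact m δ t)
    apply hact_eq (σ := σ * ρ)
    rw [mul_inv_rev, Matrix.SpecialLinearGroup.coe_mul, ← Matrix.mul_assoc, hσ, Matrix.mul_assoc,
      hρ, ← Matrix.mul_assoc, ← Matrix.SpecialLinearGroup.coe_mul]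

theorem hsmul_def {m : ℕ} [NeZero m] (γ : SL(2, ℤ)) (t : ↥(HM (m ^ 2))) : γ • t = hact m γ t := rfl

/-- the index set: representatives of determinant `m²` and elements of `SL₂(ℤ/N)` -/
def QQ (N m : ℕ) : Type := ↥(HM (m ^ 2)) × QN N

noncomputable instance (N m : ℕ) [NeZero N] : Fintype (QQ N m) :=
  inferInstanceAs (Fintype (↥(HM (m ^ 2)) × QN N))

/-- `γ (t, s) = (γ t, γ s)` -/
noncomputable instance qqAct (N m : ℕ) [NeZero m] : MulAction SL(2, ℤ) (QQ N m) where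
  smul γ j := (γ • j.1, red N γ * j.2)
  one_smul j := by
    refine Prod.ext (one_smul _ j.1) ?_
    show red N 1 * j.2 = j.2
    rw [hk_red_one, one_mul]
  mul_smul γ δ j := by
    refine Prod.ext (mul_smul γ δ j.1) ?_
    show red N (γ * δ) * j.2 = red N γ * (red N δ * j.2)
    rw [hk_red_mul, mul_assoc]

theorem qsmul_fst {N m : ℕ} [NeZero m] (γ : SL(2, ℤ)) (j : QQ N m) : (γ • j).1 = γ • j.1 := rfl

theorem qsmul_snd {N m : ℕ} [NeZero m] (γ : SL(2, ℤ)) (j : QQ N m) : (γ • j).2 = red N γ * j.2 :=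
  rfl

/-- the content of a representative -/
def hcont (t : ℕ × ℕ × ℕ) : ℕ := Nat.gcd t.1 (Nat.gcd t.2.1 t.2.2)

/-- continuous bounded families of weight `k` -/
structure KF {N : ℕ} (k : ℕ) (Φ : QN N → SL(2, ℝ) → ℂ) : Prop where
  fam : Fam Φ
  cts : ∀ s, Continuous (Φ s)
  bdd : ∀ s g, ‖Φ s g‖ ≤ 1
  typ : ∀ s g a, Φ s (g * kK a) = cexp (k * a * I) * Φ s g

/-- the functions `Φ(δ g) conj Φ(g)` on the upper half plane -/
noncomputable def AF {N : ℕ} (m : ℕ) (Φ : QN N → SL(2, ℝ) → ℂ) (j : QQ N m) (z : ℍ) : ℂ :=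
  Φ (hQ N m j.1.1 * j.2) (hR m j.1.1 * gg z 0) * conj (Φ j.2 (gg z 0))

/-- `Ψ_w(g) = Φ(g) conj Φ(g g_w)` -/
noncomputable def Psi {N : ℕ} (Φ : QN N → SL(2, ℝ) → ℂ) (w : ℍ) (s : QN N) (g : SL(2, ℝ)) : ℂ :=
  Φ s g * conj (Φ s (g * gg w 0))

/-- bounded continuous families -/
structure BF {N : ℕ} (F : QN N → SL(2, ℝ) → ℂ) : Prop where
  fam : Fam F
  cts : ∀ s, Continuous (F s)
  bdd : ∃ B : ℝ, ∀ s g, ‖F s g‖ ≤ B

/-- the Hecke eigenvalue of the primitive operator: the sum over the representatives of determinant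
`m²` and content one is `m ν` times `Φ` -/
def PEig {N : ℕ} (m : ℕ) (Φ : QN N → SL(2, ℝ) → ℂ) (ν : ℂ) : Prop :=
  ∀ s g, ∑ t ∈ (HM (m ^ 2)).filter (fun t => hcont t = 1), Φ (hQ N m t * s) (hR m t * g) =
    m * ν * Φ s g

end Pool.Agent.JO
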